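import Pool.Agent.Helper40.Frob.Tate

/-!
# Jordan blocks of an isometry commuting with a diagonalisable family
-/

open Polynomial Module

namespace Pool.Agent.Helper13.Equiv

open Pool.Agent.Helper40.Frob

variable {L V : Type*} [Field L] [AddCommGroup V] [Module L V]

/-- `F - α` commutes with `F`-stable submodules -/
theorem sub_mem {F : End L V} {U : Submodule L V} (hU : ∀ x ∈ U, F x ∈ U) (α : L) :
    ∀ x ∈ U, (F - α • 1) x ∈ U := by
  intro x hx
  rw [LinearMap.sub_apply, LinearMap.smul_apply, End.one_apply]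
  exact U.sub_mem (hU x hx) (U.smul_mem _ hx)

theorem sub_pow_mem {F : End L V} {U : Submodule L V} (hU : ∀ x ∈ U, F x ∈ U) (α : L) (n : ℕ) :
    ∀ x ∈ U, ((F - α • 1) ^ n) x ∈ U := by
  induction n with
  | zero => intro x hx; simpa using hx
  | succ n ih =>
    intro x hx
    rw [pow_succ, End.mul_apply]
    exact ih _ (sub_mem hU α x hx)

theorem aeval_mem {F : End L V} {U : Submodule L V} (hU : ∀ x ∈ U, F x ∈ U) (G : L[X]) :
    ∀ x ∈ U, (aeval F G) x ∈ U := by
  intro x hx
  induction G using Polynomial.induction_on' with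
  | add p q hp hq => rw [map_add, LinearMap.add_apply]; exact U.add_mem hp hq
  | monomial n a =>
    rw [aeval_monomial, End.mul_apply]
    have h1 : ∀ k : ℕ, (F ^ k) x ∈ U := by
      intro k
      induction k with
      | zero => simpa using hx
      | succ k ih => rw [pow_succ', End.mul_apply]; exact hU _ ih
    exact U.smul_mem _ (h1 n)

/-- the multiplicity of a root of an annihilating polynomial -/
theorem blk_le {F : End L V} {A : L[X]} (hA : A ≠ 0) {x : V} (hx : aeval F A x = 0) {α : L}
    {n : ℕ} (hn : ((F - α • 1) ^ n) x = 0) :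
    ((F - α • 1) ^ (A.rootMultiplicity α)) x = 0 := by
  obtain ⟨R, hR, hnR⟩ := exists_eq_pow_rootMultiplicity_mul_and_not_dvd A hA α
  set m := A.rootMultiplicity α
  have hXF : aeval F (X - C α) = F - α • 1 := by
    rw [map_sub, aeval_X, aeval_C, Algebra.algebraMap_eq_smul_one]
  have hcop : IsCoprime ((X - C α) ^ n) R :=
    (((irreducible_X_sub_C α).coprime_iff_not_dvd).2 hnR).pow_left
  obtain ⟨a, b, hab⟩ := hcop
  have h1 : aeval F (a * (X - C α) ^ n + b * R) (((F - α • 1) ^ m) x) = 0 := by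
    rw [map_add, LinearMap.add_apply]
    have h2 : aeval F (a * (X - C α) ^ n) (((F - α • 1) ^ m) x) = 0 := by
      rw [← hXF, ← map_pow, ← End.mul_apply, ← map_mul]
      have : a * (X - C α) ^ n * (X - C α) ^ m = (a * (X - C α) ^ m) * (X - C α) ^ n := by ring
      rw [this, map_mul, End.mul_apply, map_pow (aeval F), hXF, hn, map_zero]
    have h3 : aeval F (b * R) (((F - α • 1) ^ m) x) = 0 := by
      rw [← hXF, ← map_pow, ← End.mul_apply, ← map_mul]
      have : b * R * (X - C α) ^ m = b * ((X - C α) ^ m * R) := by ring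
      rw [this, ← hR, map_mul, End.mul_apply, hx, map_zero]
    rw [h2, h3, add_zero]
  rw [hab, map_one, End.one_apply] at h1
  exact h1

/-- raising the exponent -/
theorem pow_mono {f : End L V} {x : V} {m n : ℕ} (h : m ≤ n) (hx : (f ^ m) x = 0) :
    (f ^ n) x = 0 := by
  obtain ⟨c, rfl⟩ := Nat.exists_eq_add_of_le h
  rw [add_comm, pow_add, End.mul_apply, hx, map_zero]

variable [FiniteDimensional L V]

/-- the dimension of the generalised eigenspace in a stable submodule bounds the blocks -/
theorem dim_le {F : End L V} {U : Submodule L V} (hU : ∀ x ∈ U, F x ∈ U) {α : L} {x : V}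
    (hx : x ∈ U) {n : ℕ} (hn : ((F - α • 1) ^ n) x = 0) :
    ((F - α • 1) ^ (finrank L ↥(U ⊓ F.maxGenEigenspace α))) x = 0 := by
  set G : Submodule L V := U ⊓ F.maxGenEigenspace α with hG
  have hGs : ∀ y ∈ G, (F - α • 1) y ∈ G := by
    rintro y ⟨h1, h2⟩
    refine ⟨sub_mem hU α y h1, ?_⟩
    rw [SetLike.mem_coe, End.mem_maxGenEigenspace] at h2 ⊢
    obtain ⟨k, hk⟩ := h2
    refine ⟨k, ?_⟩
    rw [← End.mul_apply, ← pow_succ, pow_succ', End.mul_apply, hk, map_zero]
  let f : End L G := (F - α • 1).restrict hGs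
  have hcoe : ∀ (k : ℕ) (y : G), (((f ^ k) y : G) : V) = ((F - α • 1) ^ k) (y : V) := by
    intro k
    induction k with
    | zero => intro y; simp
    | succ k ih =>
      intro y
      rw [pow_succ, pow_succ, End.mul_apply, End.mul_apply, ih]
      rfl
  have hnil : ∀ y : G, ∃ k, (f ^ k) y = 0 := by
    intro y
    obtain ⟨k, hk⟩ := (End.mem_maxGenEigenspace _ _ _).1 y.2.2
    refine ⟨k, Subtype.ext ?_⟩
    rw [hcoe, hk]
    rfl
  have h1 : f.charpoly = X ^ (finrank L G) := ((LinearMap.charpoly_nilpotent_tfae f).out 2 1).1 hnil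
  have h2 := f.aeval_self_charpoly
  rw [h1, map_pow, aeval_X] at h2
  have h3 := hcoe (finrank L G) ⟨x, hx, (End.mem_maxGenEigenspace _ _ _).2 ⟨n, hn⟩⟩
  rw [h2] at h3
  exact h3.symm

/-- the self-dual case -/
theorem odd_le (h2 : (2 : L) ≠ 0) {B : LinearMap.BilinForm L V} (hs : ∀ x y, B x y = B y x)
    {F : End L V} (hF : ∀ x y, B (F x) (F y) = B x y) {U : Submodule L V}
    (hU : ∀ x ∈ U, F x ∈ U) (hUn : (B.restrict U).Nondegenerate) {α : L} (hα : α ^ 2 = 1) {x : V}
    (hx : x ∈ U) {n : ℕ} (hn : ((F - α • 1) ^ n) x = 0) :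
    ((F - α • 1) ^ (2 * ((finrank L ↥(U ⊓ F.maxGenEigenspace α) - 1) / 2) + 1)) x = 0 := by
  have hα0 : α ≠ 0 := by
    rintro rfl
    rw [zero_pow two_ne_zero] at hα
    exact zero_ne_one hα
  have hUu : ∀ y ∈ U, (α • F) y ∈ U := fun y hy => U.smul_mem _ (hU y hy)
  let u : End L U := (α • F).restrict hUu
  have hu1 : ∀ y : U, (((u - 1) y : U) : V) = α • ((F - α • 1) (y : V)) := by
    intro y
    change α • F (y : V) - (y : V) = α • (F (y : V) - α • (y : V))
    rw [smul_sub, smul_smul, ← pow_two, hα, one_smul]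
  have hcoe : ∀ (k : ℕ) (y : U), ((((u - 1) ^ k) y : U) : V) =
      α ^ k • (((F - α • 1) ^ k) (y : V)) := by
    intro k
    induction k with
    | zero => intro y; simp
    | succ k ih =>
      intro y
      rw [pow_succ, pow_succ (F - α • 1), End.mul_apply, End.mul_apply, ih, hu1, map_smul,
        smul_smul, ← pow_succ]
  have hiff : ∀ (k : ℕ) (y : U), ((u - 1) ^ k) y = 0 ↔ ((F - α • 1) ^ k) (y : V) = 0 := by
    intro k y
    rw [← Subtype.coe_inj, hcoe]
    rw [ZeroMemClass.coe_zero, smul_eq_zero]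
    constructor
    · rintro (h | h)
      · exact absurd h (pow_ne_zero _ hα0)
      · exact h
    · exact Or.inr
  have hdim : finrank L (u.maxGenEigenspace 1) = finrank L ↥(U ⊓ F.maxGenEigenspace α) := by
    have h1 : (u.maxGenEigenspace 1).map U.subtype = U ⊓ F.maxGenEigenspace α := by
      ext y
      rw [Submodule.mem_map, Submodule.mem_inf]
      constructor
      · rintro ⟨z, hz, rfl⟩
        refine ⟨z.2, ?_⟩
        rw [End.mem_maxGenEigenspace] at hz ⊢
        obtain ⟨k, hk⟩ := hz
        rw [one_smul] at hk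
        exact ⟨k, (hiff k z).1 hk⟩
      · rintro ⟨hyU, hy⟩
        refine ⟨⟨y, hyU⟩, ?_, rfl⟩
        rw [End.mem_maxGenEigenspace] at hy ⊢
        obtain ⟨k, hk⟩ := hy
        refine ⟨k, ?_⟩
        rw [one_smul]
        exact (hiff k ⟨y, hyU⟩).2 hk
    rw [← h1]
    exact (LinearEquiv.finrank_eq (Submodule.equivMapOfInjective _ U.injective_subtype _))
  have hui : ∀ a b : U, B.restrict U (u a) (u b) = B.restrict U a b := by
    intro a b
    change B (α • F (a : V)) (α • F (b : V)) = B a b
    simp only [map_smul, LinearMap.smul_apply, smul_eq_mul]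
    rw [hF]
    linear_combination (B a b) * hα
  have hbot : ((B.restrict U).restrict (⊥ : Submodule L U)).Nondegenerate := by
    refine ⟨?_, ?_⟩
    · intro a _
      exact Subsingleton.elim _ _
    · intro a _
      exact Subsingleton.elim _ _
  have hmain := tate_block h2 hUn (fun a b => hs a b) hui ⊥ (by
    intro y hy
    rw [Submodule.mem_bot] at hy
    rw [hy, map_zero]) hbot ⟨x, hx⟩ ⟨n, (hiff n ⟨x, hx⟩).2 hn⟩
  rw [finrank_bot, Nat.sub_zero, hdim] at hmain
  exact (hiff _ ⟨x, hx⟩).1 hmain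

omit [FiniteDimensional L V] in
/-- decomposition of the vectors in a stable subspace -/
theorem split {N M : Submodule L V} (hNM : IsCompl N M) {T : End L V} (hN : ∀ x ∈ N, T x ∈ N)
    (hM : ∀ x ∈ M, T x ∈ M) {n m : V} (hn : n ∈ N) (hm : m ∈ M) (h : T (n + m) = 0) :
    T n = 0 ∧ T m = 0 := by
  have h1 : T n = - T m := by
    rw [map_add] at h
    exact eq_neg_of_add_eq_zero_left h
  have h2 : T n ∈ N ⊓ M := ⟨hN n hn, by rw [h1]; exact M.neg_mem (hM m hm)⟩
  rw [hNM.inf_eq_bot, Submodule.mem_bot] at h2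
  refine ⟨h2, ?_⟩
  rw [h2] at h1
  exact neg_eq_zero.1 h1.symm

/-- semisimplicity from a spanning family of stable subspaces without nontrivial blocks -/
theorem semisimple_of_span [IsAlgClosed L] {F : End L V} {κ : Type*} (U : κ → Submodule L V)
    (hU : ∀ k, ∀ x ∈ U k, F x ∈ U k) (hspan : ⨆ k, U k = ⊤)
    (h : ∀ k, ∀ x ∈ U k, ∀ α : L, (F - α • 1) ((F - α • 1) x) = 0 → (F - α • 1) x = 0) :
    F.IsSemisimple := by
  have hXF : ∀ α : L, aeval F (X - C α) = F - α • 1 := by
    intro α
    rw [map_sub, aeval_X, aeval_C, Algebra.algebraMap_eq_smul_one]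
  set G := minpoly L F with hG
  have hint : IsIntegral L F := Algebra.IsIntegral.isIntegral F
  have hGm : G.Monic := minpoly.monic hint
  have hGF : aeval F G = 0 := minpoly.aeval L F
  have hsq : Squarefree G := by
    rw [squarefree_iff_no_irreducibles hGm.ne_zero]
    rintro Q hQ ⟨H, hH⟩
    obtain ⟨α, hα⟩ := IsAlgClosed.exists_root Q (by
      intro h0
      exact hQ.not_isUnit (isUnit_iff_degree_eq_zero.2 h0))
    have hdvd : (X - C α) * (X - C α) ∣ G := by
      have h1 : X - C α ∣ Q := dvd_iff_isRoot.2 hα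
      exact (mul_dvd_mul h1 h1).trans ⟨H, hH⟩
    obtain ⟨S, hS⟩ := hdvd
    have hSm : S.Monic := by
      apply ((monic_X_sub_C α).mul (monic_X_sub_C α)).of_mul_monic_left
      rw [← hS]; exact hGm
    have hann : aeval F ((X - C α) * S) = 0 := by
      have hle : (⊤ : Submodule L V) ≤ LinearMap.ker (aeval F ((X - C α) * S)) := by
        rw [← hspan]
        apply iSup_le
        intro k x hx
        rw [LinearMap.mem_ker, map_mul, End.mul_apply, hXF]
        apply h k _ (aeval_mem (hU k) S x hx)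
        have h2 := congrArg (fun f : End L V => f x) hGF
        simp only [LinearMap.zero_apply] at h2
        rw [hS, map_mul, map_mul, End.mul_apply, End.mul_apply, hXF] at h2
        exact h2
      ext x
      exact LinearMap.mem_ker.1 (hle Submodule.mem_top)
    have h3 := minpoly.min L F ((monic_X_sub_C α).mul hSm) hann
    rw [← hG, hS] at h3
    have h4 : ((X - C α) * (X - C α) * S).degree = 1 + ((X - C α) * S).degree := by
      rw [mul_assoc, degree_mul, degree_X_sub_C]
    rw [h4] at h3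
    have h5 : ((X - C α) * S).degree ≠ ⊥ := by
      rw [Ne, degree_eq_bot]
      exact ((monic_X_sub_C α).mul hSm).ne_zero
    rw [degree_eq_natDegree ((monic_X_sub_C α).mul hSm).ne_zero] at h3
    have h6 : (1 + ((X - C α) * S).natDegree : ℕ) ≤ ((X - C α) * S).natDegree := by
      exact_mod_cast h3
    omega
  exact End.isSemisimple_of_squarefree_aeval_eq_zero hsq hGF

end Pool.Agent.Helper13.Equiv
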