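import Pool.Agent.Helper13.Equiv.Defs

/-!
# Gauss's lemma for valuations, and Kronecker's theorem over a number field
-/

open Polynomial

namespace Pool.Agent.Helper13.Equiv

section top

variable {K Γ : Type*} [Field K] [LinearOrderedCommGroupWithZero Γ] (v : Valuation K Γ)

/-- `a` is the last index at which the valuation of the coefficients of `f` is maximal -/
def Top (f : K[X]) (a : ℕ) : Prop :=
  (∀ i, v (f.coeff i) ≤ v (f.coeff a)) ∧ ∀ i, a < i → v (f.coeff i) < v (f.coeff a)

theorem exists_top {f : K[X]} (hf : f ≠ 0) : ∃ a, Top v f a := by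
  classical
  have hne : f.support.Nonempty := support_nonempty.2 hf
  obtain ⟨i0, hi0, hmax⟩ := f.support.exists_max_image (fun i => v (f.coeff i)) hne
  set S := f.support.filter (fun i => v (f.coeff i0) ≤ v (f.coeff i)) with hS
  have hSne : S.Nonempty := ⟨i0, by simp [hS, mem_support_iff.1 hi0]⟩
  set a := S.max' hSne with ha
  have haS : a ∈ S := S.max'_mem hSne
  have haf : v (f.coeff i0) ≤ v (f.coeff a) := (Finset.mem_filter.1 haS).2
  have hle : ∀ i, v (f.coeff i) ≤ v (f.coeff a) := by
    intro i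
    by_cases hi : f.coeff i = 0
    · rw [hi, map_zero]; exact zero_le
    · exact (hmax i (mem_support_iff.2 hi)).trans haf
  refine ⟨a, hle, ?_⟩
  intro i hai
  by_contra hcon
  push Not at hcon
  have hi : f.coeff i ≠ 0 := by
    intro h0
    rw [h0, map_zero] at hcon
    have h1 : v (f.coeff i0) = 0 := le_antisymm (haf.trans hcon) zero_le
    exact (mem_support_iff.1 hi0) ((map_eq_zero v).1 h1)
  have : i ∈ S := by
    rw [hS, Finset.mem_filter]
    exact ⟨mem_support_iff.2 hi, haf.trans hcon⟩
  exact absurd (S.le_max' i this) (not_le.2 hai)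

theorem Top.ne_zero {f : K[X]} (hf : f ≠ 0) {a : ℕ} (h : Top v f a) : v (f.coeff a) ≠ 0 := by
  intro h0
  apply hf
  ext i
  have := h.1 i
  rw [h0, le_zero_iff] at this
  rw [coeff_zero]
  exact (map_eq_zero v).1 this

theorem Top.mul {f g : K[X]} (hf : f ≠ 0) (hg : g ≠ 0) {a b : ℕ} (ha : Top v f a)
    (hb : Top v g b) : v ((f * g).coeff (a + b)) = v (f.coeff a) * v (g.coeff b) ∧
      Top v (f * g) (a + b) := by
  classical
  have hfa := ha.ne_zero v hf
  have hgb := hb.ne_zero v hg
  have hpos : 0 < v (f.coeff a) * v (g.coeff b) :=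
    zero_lt_iff.2 (mul_ne_zero hfa hgb)
  have hstrict : ∀ i j, (a < i ∨ b < j) →
      v (f.coeff i * g.coeff j) < v (f.coeff a) * v (g.coeff b) := by
    intro i j hij
    rw [map_mul]
    rcases hij with h | h
    · calc v (f.coeff i) * v (g.coeff j) ≤ v (f.coeff i) * v (g.coeff b) :=
            mul_le_mul_right (hb.1 j) _
        _ < _ := by
            exact mul_lt_mul_of_pos_right (ha.2 i h) (zero_lt_iff.2 hgb)
    · calc v (f.coeff i) * v (g.coeff j) ≤ v (f.coeff a) * v (g.coeff j) :=
            mul_le_mul_left (ha.1 i) _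
        _ < _ := mul_lt_mul_of_pos_left (hb.2 j h) (zero_lt_iff.2 hfa)
  have hval : v ((f * g).coeff (a + b)) = v (f.coeff a) * v (g.coeff b) := by
    rw [coeff_mul, ← Finset.add_sum_erase _ _
      (show (a, b) ∈ Finset.HasAntidiagonal.antidiagonal (a + b) by simp)]
    have h1 : v (∑ x ∈ (Finset.HasAntidiagonal.antidiagonal (a + b)).erase (a, b), f.coeff x.1 * g.coeff x.2) <
        v (f.coeff a * g.coeff b) := by
      apply Valuation.map_sum_lt v (by rw [map_mul]; exact hpos.ne')
      intro x hx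
      rw [Finset.mem_erase, Finset.HasAntidiagonal.mem_antidiagonal] at hx
      rw [map_mul v (f.coeff a)]
      apply hstrict
      by_contra hcon
      push Not at hcon
      apply hx.1
      ext <;> dsimp <;> omega
    rw [Valuation.map_add_eq_of_lt_left v h1, map_mul]
  refine ⟨hval, ?_, ?_⟩
  · intro i
    rw [hval, coeff_mul]
    apply Valuation.map_sum_le
    intro x _
    rw [map_mul]
    exact mul_le_mul' (ha.1 _) (hb.1 _)
  · intro i hi
    rw [hval, coeff_mul]
    apply Valuation.map_sum_lt v hpos.ne'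
    intro x hx
    rw [Finset.HasAntidiagonal.mem_antidiagonal] at hx
    apply hstrict
    omega

theorem Top.unique {f : K[X]} {a b : ℕ} (ha : Top v f a) (hb : Top v f b) : a = b := by
  rcases lt_trichotomy a b with h | h | h
  · exact absurd (ha.2 b h) (not_lt.2 (hb.1 a))
  · exact h
  · exact absurd (hb.2 a h) (not_lt.2 (ha.1 b))

theorem Top.pow {f : K[X]} (hf : f ≠ 0) {a : ℕ} (ha : Top v f a) (e : ℕ) :
    v ((f ^ e).coeff (e * a)) = v (f.coeff a) ^ e ∧ Top v (f ^ e) (e * a) := by
  induction e with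
  | zero =>
    rw [pow_zero, zero_mul, pow_zero]
    refine ⟨by simp, ?_, ?_⟩
    · intro i
      rw [coeff_one_zero, map_one, coeff_one]
      split_ifs <;> simp
    · intro i hi
      rw [coeff_one_zero, map_one, coeff_one, if_neg hi.ne']
      simp
  | succ e ih =>
    have h := Top.mul v (pow_ne_zero e hf) hf ih.2 ha
    rw [pow_succ, pow_succ, add_mul, one_mul]
    exact ⟨by rw [h.1, ih.1], h.2⟩

/-- a monic polynomial with a coefficient of valuation `> 1` -/
theorem Top.monic {f : K[X]} (hf : f.Monic) {a : ℕ} (ha : Top v f a) : 1 ≤ v (f.coeff a) ∧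
    ((∃ i, 1 < v (f.coeff i)) → 1 < v (f.coeff a) ∧ a < f.natDegree) ∧ a ≤ f.natDegree := by
  have h1 : v (f.coeff f.natDegree) = 1 := by rw [hf.coeff_natDegree, map_one]
  have hle : a ≤ f.natDegree := by
    by_contra hcon
    push Not at hcon
    have h2 := ha.1 f.natDegree
    rw [coeff_eq_zero_of_natDegree_lt hcon, map_zero, h1] at h2
    exact absurd h2 (not_le.2 zero_lt_one)
  refine ⟨h1 ▸ ha.1 _, ?_, hle⟩
  rintro ⟨i, hi⟩
  have h2 : 1 < v (f.coeff a) := hi.trans_le (ha.1 i)
  refine ⟨h2, lt_of_le_of_ne hle ?_⟩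
  intro h
  rw [h, h1] at h2
  exact lt_irrefl _ h2

/-- Gauss's lemma: the multiplicity of a non-integral monic factor is bounded -/
theorem gauss {f g : K[X]} (hf : f.Monic) (hg : g.Monic) {e : ℕ} (h : g ^ e ∣ f) {a b : ℕ}
    (ha : Top v f a) (hb : Top v g b) :
    v (g.coeff b) ^ e ≤ v (f.coeff a) ∧
      ((∃ i, 1 < v (g.coeff i)) → a + e ≤ f.natDegree) := by
  obtain ⟨r, hr⟩ := h
  have hge : (g ^ e).Monic := hg.pow e
  have hrm : r.Monic := by
    apply hge.of_mul_monic_left
    rw [← hr]; exact hf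
  obtain ⟨c, hc⟩ := exists_top v hrm.ne_zero
  have h1 := Top.pow v hg.ne_zero hb e
  have h2 := Top.mul v hge.ne_zero hrm.ne_zero h1.2 hc
  rw [← hr] at h2
  have h3 : e * b + c = a := h2.2.unique v ha
  have h4 := hc.monic v hrm
  have h5 := hb.monic v hg
  refine ⟨?_, ?_⟩
  · rw [← h3, h2.1, h1.1]
    exact le_mul_of_one_le_right' h4.1
  · intro hi
    have h6 := (h5.2.1 hi).2
    have h7 : f.natDegree = e * g.natDegree + r.natDegree := by
      rw [hr, hge.natDegree_mul hrm, hg.natDegree_pow]
    have h8 : e * b + e ≤ e * g.natDegree := by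
      calc e * b + e = e * (b + 1) := by ring
        _ ≤ _ := Nat.mul_le_mul_left _ h6
    omega

end top

section place

open IsDedekindDomain NumberField

variable {E : Type*} [Field E] [NumberField E]

theorem val_algebraMap (v : HeightOneSpectrum (𝓞 E)) (x : E) :
    Valued.v (algebraMap E (v.adicCompletion E) x) = v.valuation E x :=
  v.valuedAdicCompletion_eq_valuation' x

/-- a non-integral monic polynomial has a non-integral monic irreducible factor -/
theorem exists_factor (v : HeightOneSpectrum (𝓞 E)) {Q : (v.adicCompletion E)[X]} (hQ : Q.Monic)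
    (hi : ∃ i, Q.coeff i ∉ v.adicCompletionIntegers E) :
    ∃ R : (v.adicCompletion E)[X], R.Monic ∧ Irreducible R ∧ R ∣ Q ∧
      ∃ i, R.coeff i ∉ v.adicCompletionIntegers E := by
  by_contra hcon
  push Not at hcon
  have key : ∀ n : ℕ, ∀ S : (v.adicCompletion E)[X], S.Monic → S ∣ Q → S.natDegree ≤ n →
      ∀ i, S.coeff i ∈ v.adicCompletionIntegers E := by
    intro n
    induction n with
    | zero =>
      intro S hS _ hn i
      have h1 : S = 1 := hS.natDegree_eq_zero.1 (Nat.le_zero.1 hn)
      rw [h1, coeff_one]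
      split_ifs
      · exact one_mem _
      · exact zero_mem _
    | succ n ih =>
      intro S hS hSQ hn
      by_cases hu : S = 1
      · intro i
        rw [hu, coeff_one]
        split_ifs
        · exact one_mem _
        · exact zero_mem _
      obtain ⟨R, hRm, hRi, hRS⟩ := exists_monic_irreducible_factor S (by
        intro h
        exact hu (hS.eq_one_of_isUnit h))
      obtain ⟨T, hT⟩ := hRS
      have hTm : T.Monic := by
        apply hRm.of_mul_monic_left
        rw [← hT]; exact hS
      have hdeg : S.natDegree = R.natDegree + T.natDegree := by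
        rw [hT, hRm.natDegree_mul hTm]
      have hRpos := hRi.natDegree_pos
      have h1 := ih T hTm ((Dvd.intro_left R hT.symm).trans hSQ) (by omega)
      have h2 := hcon R hRm hRi ((Dvd.intro T hT.symm).trans hSQ)
      intro i
      rw [hT, coeff_mul]
      exact sum_mem fun x _ => mul_mem (h2 _) (h1 _)
  obtain ⟨i, hi⟩ := hi
  exact hi (key _ Q hQ dvd_rfl le_rfl i)

theorem mult_bound {v : HeightOneSpectrum (𝓞 E)} {A Q : E[X]} (hA : A.Monic) (hQ : Q.Monic)
    {b : ℕ} (hb : MultAt A b v ∨ DenomAt A b v ∨ SlopesAt A b v) {e : ℕ} (he : Q ^ e ∣ A)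
    (hi : ∃ i, 1 < v.valuation E (Q.coeff i)) : e ≤ b := by
  obtain ⟨a, ha⟩ := exists_top (v.valuation E) hA.ne_zero
  obtain ⟨c, hc⟩ := exists_top (v.valuation E) hQ.ne_zero
  have hg := gauss (v.valuation E) hA hQ he ha hc
  rcases hb with hb | hb | ⟨j, hj, hb⟩
  · obtain ⟨R, hRm, hRi, hRQ, hR⟩ := exists_factor v (hQ.map (algebraMap E (v.adicCompletion E)))
      (by
        obtain ⟨i, hi⟩ := hi
        refine ⟨i, ?_⟩
        rw [HeightOneSpectrum.mem_adicCompletionIntegers, coeff_map, val_algebraMap]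
        exact not_le.2 hi)
    apply hb R hRm hRi hR
    refine (pow_dvd_pow_of_dvd hRQ e).trans ?_
    rw [← Polynomial.map_pow]
    exact Polynomial.map_dvd _ he
  · have h1 := (hc.monic _ hQ).2.1 hi
    have h2 : WithZero.exp (1 : ℤ) ≤ v.valuation E (Q.coeff c) := by
      have h3 := h1.1
      have h4 : v.valuation E (Q.coeff c) ≠ 0 := (zero_lt_one.trans h3).ne'
      obtain ⟨m, hm⟩ : ∃ m : ℤ, v.valuation E (Q.coeff c) = WithZero.exp m :=
        ⟨WithZero.log _, (WithZero.exp_log h4).symm⟩
      rw [hm] at h3 ⊢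
      rw [← WithZero.exp_zero, WithZero.exp_lt_exp] at h3
      rw [WithZero.exp_le_exp]
      omega
    have h5 : WithZero.exp (e : ℤ) ≤ WithZero.exp (b : ℤ) := by
      calc WithZero.exp (e : ℤ) = WithZero.exp (1 : ℤ) ^ e := by
            rw [← WithZero.exp_nsmul]
            congr 1
            simp
        _ ≤ v.valuation E (Q.coeff c) ^ e := pow_le_pow_left' h2 e
        _ ≤ v.valuation E (A.coeff a) := hg.1
        _ ≤ _ := hb a
    rw [WithZero.exp_le_exp] at h5
    exact_mod_cast h5
  · have h1 := hg.2 hi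
    have h2 : j ≤ a := by
      by_contra hcon
      push Not at hcon
      exact absurd (hb a) (not_le.2 (ha.2 j hcon))
    omega

/-- an integral polynomial all of whose conjugate roots have absolute value one -/
theorem exists_place {L : Type*} [Field L] [Algebra E L] {Q : E[X]} (hQm : Q.Monic)
    (hQ : Irreducible Q) (hW : ∀ (φ : E →+* ℂ) (z : ℂ), (Q.map φ).eval z = 0 → ‖z‖ = 1)
    {α : L} (hα : aeval α Q = 0) (h1 : ∀ n : ℕ, 0 < n → α ^ n ≠ 1) :
    ∃ v : HeightOneSpectrum (𝓞 E), ∃ i, 1 < v.valuation E (Q.coeff i) := by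
  by_contra hcon
  push Not at hcon
  have hint : ∀ i, IsIntegral ℤ (Q.coeff i) := by
    intro i
    obtain ⟨y, hy⟩ := HeightOneSpectrum.mem_integers_of_valuation_le_one E (Q.coeff i)
      (fun v => hcon v i)
    rw [← hy]
    exact y.2
  have : Fact (Irreducible Q) := ⟨hQ⟩
  have : FiniteDimensional E (AdjoinRoot Q) := (AdjoinRoot.powerBasis hQ.ne_zero).finite
  have : CharZero (AdjoinRoot Q) := charZero_of_injective_algebraMap
    (algebraMap E (AdjoinRoot Q)).injective
  have : FiniteDimensional ℚ (AdjoinRoot Q) := FiniteDimensional.trans ℚ E (AdjoinRoot Q)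
  have : NumberField (AdjoinRoot Q) :=
    { to_charZero := inferInstance, to_finiteDimensional := inferInstance }
  set x : AdjoinRoot Q := AdjoinRoot.root Q with hx
  have hxQ : aeval x Q = 0 := by
    rw [aeval_def, hx]
    exact AdjoinRoot.eval₂_root Q
  have hxint : IsIntegral ℤ x := by
    have h2 : IsIntegral (𝓞 E) x := by
      have hmem : Q ∈ lifts (algebraMap (𝓞 E) E) := by
        rw [lifts_iff_coeff_lifts]
        intro i
        exact ⟨⟨Q.coeff i, hint i⟩, rfl⟩
      obtain ⟨Q0, hQ0, -, hQ0m⟩ := lifts_and_natDegree_eq_and_monic hmem hQm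
      refine ⟨Q0, hQ0m, ?_⟩
      have h3 : aeval x (Q0.map (algebraMap (𝓞 E) E)) = 0 := by rw [hQ0, hxQ]
      rw [aeval_map_algebraMap] at h3
      exact h3
    exact isIntegral_trans x h2
  obtain ⟨n, hn, hxn⟩ := Embeddings.pow_eq_one_of_norm_eq_one (AdjoinRoot Q) ℂ hxint
    (fun φ => by
      apply hW (φ.comp (algebraMap E (AdjoinRoot Q)))
      rw [eval_map, ← Polynomial.hom_eval₂]
      rw [aeval_def] at hxQ
      rw [hxQ, map_zero])
  apply h1 n hn
  have h4 : aeval x (X ^ n - 1 : E[X]) = 0 := by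
    rw [map_sub, map_pow, aeval_X, hxn, map_one, sub_self]
  have h5 : Q ∣ X ^ n - 1 := by
    have h6 : AdjoinRoot.mk Q (X ^ n - 1) = 0 := by
      rw [← AdjoinRoot.aeval_eq]
      exact h4
    exact AdjoinRoot.mk_eq_zero.1 h6
  obtain ⟨S, hS⟩ := h5
  have h7 : aeval α (X ^ n - 1 : E[X]) = 0 := by
    rw [hS, map_mul, hα, zero_mul]
  rw [map_sub, map_pow, aeval_X, map_one, sub_eq_zero] at h7
  exact h7

/-- the multiplicity of a root is the multiplicity of its minimal polynomial -/
theorem rootMultiplicity_le_of {E L : Type*} [Field E] [CharZero E] [Field L] [Algebra E L]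
    {A : E[X]} (hA : A ≠ 0) {α : L} {b : ℕ} (h : ∀ e, (minpoly E α) ^ e ∣ A → e ≤ b) :
    (A.map (algebraMap E L)).rootMultiplicity α ≤ b := by
  by_cases hα : aeval α A = 0
  swap
  · rw [rootMultiplicity_eq_zero]
    · exact Nat.zero_le _
    · rw [IsRoot.def, eval_map, ← aeval_def]
      exact hα
  have hαi : IsIntegral E α := by
    rw [← isAlgebraic_iff_isIntegral]
    exact ⟨A, hA, hα⟩
  set Q := minpoly E α with hQdef
  have hQ : Irreducible Q := minpoly.irreducible hαi
  have hQm : Q.Monic := minpoly.monic hαi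
  set e := multiplicity Q A with he
  have hfin : FiniteMultiplicity Q A := FiniteMultiplicity.of_prime_left hQ.prime hA
  obtain ⟨R, hR, hnR⟩ := hfin.exists_eq_pow_mul_and_not_dvd
  have hR0 : R ≠ 0 := by
    rintro rfl
    exact hnR (dvd_zero _)
  have heb : e ≤ b := h e ⟨R, hR⟩
  have hinj : Function.Injective (algebraMap E L) := (algebraMap E L).injective
  have hQ0 : Q.map (algebraMap E L) ≠ 0 := (hQm.map _).ne_zero
  have h2 : (Q.map (algebraMap E L)).rootMultiplicity α ≤ 1 := by
    by_contra hcon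
    push Not at hcon
    have hsep : Q.Separable := hQ.separable
    have h3 := (hsep.map (f := algebraMap E L)).squarefree
    have h4 : (X - C α) ^ 2 ∣ Q.map (algebraMap E L) :=
      (le_rootMultiplicity_iff hQ0).1 hcon
    have h5 := h3 (X - C α) (by rwa [← pow_two])
    exact not_isUnit_X_sub_C α h5
  have h3 : (R.map (algebraMap E L)).rootMultiplicity α = 0 := by
    rw [rootMultiplicity_eq_zero]
    rw [IsRoot.def, eval_map, ← aeval_def]
    intro h0
    exact hnR (minpoly.dvd E α h0)
  have hprod : (Q ^ e * R).map (algebraMap E L) ≠ 0 := by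
    rw [Ne, Polynomial.map_eq_zero_iff hinj]
    exact mul_ne_zero (pow_ne_zero _ hQm.ne_zero) hR0
  rw [hR, Polynomial.map_mul, rootMultiplicity_mul (by rwa [← Polynomial.map_mul]), h3, add_zero]
  have h6 : ∀ k : ℕ, ((Q.map (algebraMap E L)) ^ k).rootMultiplicity α ≤ k := by
    intro k
    induction k with
    | zero => simp
    | succ k ih =>
      rw [pow_succ, rootMultiplicity_mul (mul_ne_zero (pow_ne_zero _ hQ0) hQ0)]
      omega
  rw [Polynomial.map_pow]
  exact (h6 e).trans heb

/-- Multiplicity of an eigenvalue that is not a root of unity. -/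
theorem rootMultiplicity_le {L : Type*} [Field L] [Algebra E L] {p : ℕ} {A : E[X]}
    (hA : A.Monic)
    (hW : ∀ (φ : E →+* ℂ) (z : ℂ), (A.map φ).eval z = 0 → ‖z‖ = 1)
    (hint : ∀ i, ∃ D : ℕ, IsIntegral ℤ ((p : E) ^ D * A.coeff i)) {b : ℕ}
    (hb : ∀ v : HeightOneSpectrum (𝓞 E), (p : 𝓞 E) ∈ v.asIdeal →
      MultAt A b v ∨ DenomAt A b v ∨ SlopesAt A b v)
    {α : L} (h1 : ∀ n : ℕ, 0 < n → α ^ n ≠ 1) :
    (A.map (algebraMap E L)).rootMultiplicity α ≤ b := by
  by_cases hα : aeval α A = 0
  swap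
  · rw [rootMultiplicity_eq_zero]
    · exact Nat.zero_le _
    · rw [IsRoot.def, eval_map, ← aeval_def]
      exact hα
  have hαi : IsIntegral E α := ⟨A, hA, hα⟩
  have hQ : Irreducible (minpoly E α) := minpoly.irreducible hαi
  have hQm : (minpoly E α).Monic := minpoly.monic hαi
  have hQA : minpoly E α ∣ A := minpoly.dvd E α hα
  obtain ⟨v, i, hvi⟩ := exists_place hQm hQ (fun φ z hz => hW φ z (by
    obtain ⟨R, hR⟩ := hQA
    rw [hR, Polynomial.map_mul, eval_mul, hz, zero_mul])) (minpoly.aeval E α) h1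
  have hvp : (p : 𝓞 E) ∈ v.asIdeal := by
    by_contra hcon
    obtain ⟨a, ha⟩ := exists_top (v.valuation E) hA.ne_zero
    obtain ⟨c, hc⟩ := exists_top (v.valuation E) hQm.ne_zero
    have hg := (gauss (v.valuation E) hA hQm (e := 1) (by rwa [pow_one]) ha hc).1
    rw [pow_one] at hg
    obtain ⟨D, hD⟩ := hint a
    have h2 : v.valuation E ((p : E) ^ D * A.coeff a) ≤ 1 := by
      have := v.valuation_le_one (K := E) (⟨_, hD⟩ : 𝓞 E)
      exact this
    have h3 : v.valuation E (p : E) = 1 := by
      apply le_antisymm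
      · have := v.valuation_le_one (K := E) (p : 𝓞 E)
        simpa using this
      · by_contra h4
        push Not at h4
        apply hcon
        rw [← v.valuation_lt_one_iff_mem (K := E)]
        simpa using h4
    rw [map_mul, map_pow, h3, one_pow, one_mul] at h2
    exact absurd ((hvi.trans_le (hc.1 i)).trans_le hg) (not_lt.2 h2)
  exact rootMultiplicity_le_of hA.ne_zero (fun e he => mult_bound hA hQm (hb v hvp) he ⟨i, hvi⟩)

end place

end Pool.Agent.Helper13.Equiv
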