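import Pool.Agent.Helper13.Equiv.Family
import Pool.Agent.Helper13.Equiv.Gauss

/-!
# A cyclic group of isometries commuting with Frobenius
-/

open Polynomial Module

namespace Pool.Agent.Helper13.Equiv

variable {L V : Type*} [Field L] [CharZero L] [AddCommGroup V] [Module L V]
  [FiniteDimensional L V]

/-- conjugate algebraic elements have the same multiplicity as roots of a rational polynomial -/
theorem mult_conj {c : ℚ[X]} (hc : c ≠ 0) {μ μ' : L} (h : minpoly ℚ μ = minpoly ℚ μ') :
    (c.map (algebraMap ℚ L)).rootMultiplicity μ ≤ (c.map (algebraMap ℚ L)).rootMultiplicity μ' := by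
  apply rootMultiplicity_le_of hc
  intro e he
  have hinj : Function.Injective (algebraMap ℚ L) := (algebraMap ℚ L).injective
  have hc' : c.map (algebraMap ℚ L) ≠ 0 := by rwa [Ne, Polynomial.map_eq_zero_iff hinj]
  rw [le_rootMultiplicity_iff hc']
  have h1 : X - C μ' ∣ (minpoly ℚ μ').map (algebraMap ℚ L) := by
    rw [dvd_iff_isRoot, IsRoot.def, eval_map, ← aeval_def]
    exact minpoly.aeval ℚ μ'
  refine (pow_dvd_pow_of_dvd h1 e).trans ?_
  rw [← Polynomial.map_pow, ← h]
  exact Polynomial.map_dvd _ he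

/-- an operator of finite order is semisimple -/
theorem semi_of_pow {W : Type*} [AddCommGroup W] [Module L W] {f : End L W} {n : ℕ} (hn : 0 < n)
    (hf : f ^ n = 1) : f.IsSemisimple := by
  apply End.isSemisimple_of_squarefree_aeval_eq_zero (p := X ^ n - 1)
  · apply Separable.squarefree
    exact X_pow_sub_one_separable_iff.2 (by exact_mod_cast hn.ne')
  · rw [map_sub, map_pow, aeval_X, hf, map_one, sub_self]

omit [CharZero L] [FiniteDimensional L V] in
/-- eigenspaces of a restriction -/
theorem finrank_restrict {g : End L V} {W : Submodule L V} (hg : ∀ x ∈ W, g x ∈ W) (μ : L) :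
    finrank L (End.eigenspace (g.restrict hg) μ) = finrank L ↥(W ⊓ g.eigenspace μ) := by
  have h3 : (End.eigenspace (g.restrict hg) μ).map W.subtype = W ⊓ g.eigenspace μ := by
    ext y
    rw [Submodule.mem_map, Submodule.mem_inf, End.mem_eigenspace_iff]
    constructor
    · rintro ⟨z, hz, rfl⟩
      rw [End.mem_eigenspace_iff] at hz
      exact ⟨z.2, congrArg Subtype.val hz⟩
    · rintro ⟨hyW, hy⟩
      refine ⟨⟨y, hyW⟩, ?_, rfl⟩
      rw [End.mem_eigenspace_iff]
      exact Subtype.ext hy
  rw [← h3]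
  exact (LinearEquiv.finrank_eq (Submodule.equivMapOfInjective _ W.injective_subtype _))

/-- the multiplicities of the primitive `d`-th roots of unity as eigenvalues of an operator of
finite order with rational characteristic polynomial -/
theorem mult_prim {g : End L V} {n : ℕ} (hn : 0 < n) (hgn : g ^ n = 1) {W : Submodule L V}
    (hg : ∀ x ∈ W, g x ∈ W) {c : ℚ[X]}
    (hc : c.map (algebraMap ℚ L) = (g.restrict hg).charpoly) {d : ℕ} (hd : 0 < d) {μ : L}
    (hμ : IsPrimitiveRoot μ d) :
    d.totient * finrank L ↥(W ⊓ g.eigenspace μ) ≤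
      finrank L ↥(W ⊓ LinearMap.ker (aeval g (cyclotomic d L))) := by
  classical
  set U : Submodule L V := W ⊓ LinearMap.ker (aeval g (cyclotomic d L)) with hU
  have hgU : ∀ x ∈ U, g x ∈ U := by
    rintro x ⟨h1, h2⟩
    refine ⟨hg x h1, ?_⟩
    rw [SetLike.mem_coe, LinearMap.mem_ker] at h2 ⊢
    have hcom : Commute (aeval g (cyclotomic d L)) g := by
      rw [aeval_eq_sum_range]
      exact Commute.sum_left _ _ _ fun i _ => ((Commute.refl g).pow_left i).smul_left _
    have h3 := congrArg (fun f : End L V => f x) hcom.eq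
    simp only [End.mul_apply] at h3
    rw [h3, h2, map_zero]
  have hinj : Function.Injective (algebraMap ℚ L) := (algebraMap ℚ L).injective
  have hc0 : c ≠ 0 := by
    rintro rfl
    rw [Polynomial.map_zero] at hc
    exact (LinearMap.charpoly_monic (g.restrict hg)).ne_zero hc.symm
  -- powers of a restriction
  have hpow : ∀ {Y : Submodule L V} (hY : ∀ x ∈ Y, g x ∈ Y), (g.restrict hY) ^ n = 1 := by
    intro Y hY
    have hcoe : ∀ (m : ℕ) (y : Y), ((((g.restrict hY) ^ m) y : Y) : V) = (g ^ m) (y : V) := by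
      intro m
      induction m with
      | zero => intro y; simp
      | succ m ih =>
        intro y
        rw [pow_succ, pow_succ, End.mul_apply, End.mul_apply, ih]
        rfl
    ext y
    rw [hcoe, hgn]
    rfl
  have hgWs := semi_of_pow hn (hpow hg)
  have hgUs := semi_of_pow hn (hpow hgU)
  -- all primitive roots have the same multiplicity
  have hsame : ∀ ν ∈ primitiveRoots d L, finrank L ↥(W ⊓ g.eigenspace μ) ≤
      finrank L ↥(U ⊓ g.eigenspace ν) := by
    intro ν hν
    rw [mem_primitiveRoots hd] at hν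
    have h1 : minpoly ℚ μ = minpoly ℚ ν := by
      rw [← cyclotomic_eq_minpoly_rat hμ hd, ← cyclotomic_eq_minpoly_rat hν hd]
    have h2 := mult_conj hc0 h1
    rw [hc, ← LinearMap.finrank_maxGenEigenspace_eq, ← LinearMap.finrank_maxGenEigenspace_eq,
      hgWs.isFinitelySemisimple.maxGenEigenspace_eq_eigenspace,
      hgWs.isFinitelySemisimple.maxGenEigenspace_eq_eigenspace, finrank_restrict,
      finrank_restrict] at h2
    refine h2.trans (le_of_eq ?_)
    have h3 : W ⊓ g.eigenspace ν = U ⊓ g.eigenspace ν := by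
      apply le_antisymm
      · rintro x ⟨h4, h5⟩
        refine ⟨⟨h4, ?_⟩, h5⟩
        rw [SetLike.mem_coe, LinearMap.mem_ker]
        rw [SetLike.mem_coe, End.mem_eigenspace_iff] at h5
        have h6 : aeval g (cyclotomic d L) x = (cyclotomic d L).eval ν • x := by
          have := Module.End.aeval_apply_of_hasEigenvector (f := g) (p := cyclotomic d L)
            (μ := ν) (x := x)
          by_cases hx : x = 0
          · rw [hx, map_zero, smul_zero]
          · exact this ⟨End.mem_eigenspace_iff.2 h5, hx⟩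
        have : NeZero (d : L) := ⟨by exact_mod_cast hd.ne'⟩
        rw [h6, (isRoot_cyclotomic_iff.2 hν : (cyclotomic d L).eval ν = 0), zero_smul]
      · rintro x ⟨⟨h4, -⟩, h5⟩
        exact ⟨h4, h5⟩
    rw [h3]
  -- sum over the primitive roots
  set q := (g.restrict hgU).charpoly with hq
  have hqm : q.Monic := LinearMap.charpoly_monic _
  have h1 : finrank L U = q.natDegree := by rw [hq, LinearMap.charpoly_natDegree]
  have h2 : ∑ ν ∈ primitiveRoots d L, q.rootMultiplicity ν ≤ q.natDegree := by
    calc ∑ ν ∈ primitiveRoots d L, q.rootMultiplicity ν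
        = ∑ ν ∈ primitiveRoots d L, q.roots.count ν := by simp only [count_roots]
      _ ≤ ∑ ν ∈ primitiveRoots d L ∪ q.roots.toFinset, q.roots.count ν :=
          Finset.sum_le_sum_of_subset Finset.subset_union_left
      _ = ∑ ν ∈ q.roots.toFinset, q.roots.count ν := by
          symm
          apply Finset.sum_subset Finset.subset_union_right
          intro ν _ hν
          rw [Multiset.mem_toFinset] at hν
          exact Multiset.count_eq_zero.2 hν
      _ = Multiset.card q.roots := Multiset.toFinset_sum_count_eq _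
      _ ≤ q.natDegree := card_roots' q
  have h3 : ∀ ν ∈ primitiveRoots d L, finrank L ↥(W ⊓ g.eigenspace μ) ≤
      q.rootMultiplicity ν := by
    intro ν hν
    rw [hq, ← LinearMap.finrank_maxGenEigenspace_eq,
      hgUs.isFinitelySemisimple.maxGenEigenspace_eq_eigenspace, finrank_restrict]
    exact hsame ν hν
  calc d.totient * finrank L ↥(W ⊓ g.eigenspace μ)
      = ∑ ν ∈ primitiveRoots d L, finrank L ↥(W ⊓ g.eigenspace μ) := by
        rw [Finset.sum_const, hμ.card_primitiveRoots, smul_eq_mul]
    _ ≤ ∑ ν ∈ primitiveRoots d L, q.rootMultiplicity ν := Finset.sum_le_sum h3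
    _ ≤ finrank L U := by rw [h1]; exact h2

/-- semisimplicity of `F` at the eigenvalue one, from a cyclic group of isometries -/
theorem cyclic_block [IsAlgClosed L] {n : ℕ} (hn : 0 < n) {B : LinearMap.BilinForm L V}
    (hB : B.Nondegenerate) (hs : ∀ x y, B x y = B y x) {F : End L V}
    (hF : ∀ x y, B (F x) (F y) = B x y) {g : End L V} (hgd : g ^ n = 1)
    (hgF : ∀ x, g (F x) = F (g x)) (hgB : ∀ x y, B (g x) (g y) = B x y) {N : Submodule L V}
    (hNF : ∀ x ∈ N, F x = x) (hNg : ∀ x ∈ N, g x ∈ N) (hNn : (B.restrict N).Nondegenerate)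
    (hgW : ∀ x ∈ B.orthogonal N ⊓ F.maxGenEigenspace 1,
      g x ∈ B.orthogonal N ⊓ F.maxGenEigenspace 1) {c : ℚ[X]}
    (hc : c.map (algebraMap ℚ L) = (g.restrict hgW).charpoly)
    (h : ∀ d, d ∣ n → finrank L ↥(B.orthogonal N ⊓ F.maxGenEigenspace 1 ⊓
        LinearMap.ker (aeval g (cyclotomic d L))) < 2 * d.totient ∨
      (d ≤ 2 ∧ finrank L ↥(B.orthogonal N ⊓ F.maxGenEigenspace 1 ⊓
        LinearMap.ker (aeval g (cyclotomic d L))) ≤ 2) ∨
      ∀ x ∈ LinearMap.ker (aeval g (cyclotomic d L)),
        (F - 1) ((F - 1) x) = 0 → (F - 1) x = 0)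
    {x : V} {m : ℕ} (hx : ((F - 1) ^ m) x = 0) : (F - 1) x = 0 := by
  classical
  have hF1 : (F - (1 : L) • (1 : End L V)) = F - 1 := by rw [one_smul]
  have hgs : g.IsSemisimple := semi_of_pow hn hgd
  have hrefl : B.IsRefl := fun a b hab => by rw [hs]; exact hab
  have hNc : IsCompl N (B.orthogonal N) :=
    B.isCompl_orthogonal_of_restrict_nondegenerate hrefl hNn
  -- the family `g`, `g ^ (n - 1)`
  let T : Bool → End L V := fun b => if b then g else g ^ (n - 1)
  let ch : L → Bool → L := fun μ b => if b then μ else μ ^ (n - 1)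
  have hpowg : ∀ (m : ℕ) (μ : L) (y : V), g y = μ • y → (g ^ m) y = μ ^ m • y := by
    intro m μ y hy
    induction m with
    | zero => simp
    | succ m ih => rw [pow_succ, End.mul_apply, hy, map_smul, ih, smul_smul, pow_succ, mul_comm]
  have hd1 : n - 1 + 1 = n := Nat.succ_pred_eq_of_pos hn
  have hinv : ∀ y, (g ^ (n - 1)) (g y) = y := by
    intro y
    rw [← End.mul_apply, ← pow_succ, hd1, hgd, End.one_apply]
  have hinv' : ∀ y, g ((g ^ (n - 1)) y) = y := by
    intro y
    rw [← End.mul_apply, ← pow_succ', hd1, hgd, End.one_apply]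
  have hjoint : ∀ μ, joint T (ch μ) = g.eigenspace μ := by
    intro μ
    ext y
    rw [mem_joint, End.mem_eigenspace_iff]
    constructor
    · intro h; exact h true
    · intro h b
      cases b
      · exact hpowg _ _ _ h
      · exact h
  have hspan : ⨆ μ, joint T (ch μ) = ⊤ := by
    have h3 : ∀ μ, joint T (ch μ) = g.maxGenEigenspace μ := by
      intro μ
      rw [hjoint, hgs.isFinitelySemisimple.maxGenEigenspace_eq_eigenspace]
    simp only [h3]
    exact End.iSup_maxGenEigenspace_eq_top g
  have hgpow : ∀ (m : ℕ) (a b : V), B ((g ^ m) a) ((g ^ m) b) = B a b := by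
    intro m
    induction m with
    | zero => intro a b; rfl
    | succ m ih => intro a b; rw [pow_succ, End.mul_apply, End.mul_apply, ih, hgB]
  have hss : ∀ b : Bool, (!(!b)) = b := by intro b; cases b <;> rfl
  have hadj : ∀ (b : Bool) (x y : V), B (T b x) y = B x (T (!b) y) := by
    intro b x y
    cases b
    · change B ((g ^ (n - 1)) x) y = B x (g y)
      conv_lhs => rw [← hinv y]
      exact hgpow _ _ _
    · change B (g x) y = B x ((g ^ (n - 1)) y)
      conv_lhs => rw [← hinv' y]
      exact hgB _ _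
  have hNT : ∀ b, ∀ y ∈ N, T b y ∈ N := by
    have hNpow : ∀ m : ℕ, ∀ y ∈ N, (g ^ m) y ∈ N := by
      intro m
      induction m with
      | zero => intro y hy; simpa using hy
      | succ m ih => intro y hy; rw [pow_succ, End.mul_apply]; exact ih _ (hNg y hy)
    intro b y hy
    cases b
    · exact hNpow _ y hy
    · exact hNg y hy
  have hperp := perp_stable (B := B) (T := T) (s := fun b => !b) hss hadj hNT
  have hFN : ∀ y ∈ N, F y ∈ N := fun y hy => by rw [hNF y hy]; exact hy
  have hFperp : ∀ y ∈ B.orthogonal N, F y ∈ B.orthogonal N := F_perp hB hF hFN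
  have hFg : ∀ μ, ∀ y ∈ g.eigenspace μ, F y ∈ g.eigenspace μ := by
    intro μ y hy
    rw [End.mem_eigenspace_iff] at hy ⊢
    rw [hgF, hy, map_smul]
  set G := F.maxGenEigenspace 1 with hG
  have hmemG : ∀ y, y ∈ G ↔ ∃ k : ℕ, ((F - (1 : L) • (1 : End L V)) ^ k) y = 0 :=
    fun y => End.mem_maxGenEigenspace F 1 y
  have hgG : ∀ y ∈ G, g y ∈ G := by
    intro y hy
    rw [hmemG] at hy ⊢
    obtain ⟨k, hk⟩ := hy
    refine ⟨k, ?_⟩
    have hcom : Commute g F := LinearMap.ext hgF
    have hcom2 : Commute g ((F - (1 : L) • (1 : End L V)) ^ k) := by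
      rw [hF1]
      exact (hcom.sub_right (Commute.one_right g)).pow_right k
    have := congrArg (fun f : End L V => f y) hcom2.eq
    simp only [End.mul_apply] at this
    rw [← this, hk, map_zero]
  -- powers: from the exponent two to any exponent
  have hup : ∀ U : Submodule L V, (∀ z ∈ U, F z ∈ U) →
      (∀ x ∈ U, (F - 1) ((F - 1) x) = 0 → (F - 1) x = 0) → ∀ z ∈ U, ∀ j : ℕ,
      ((F - (1 : L) • (1 : End L V)) ^ j) z = 0 → (F - (1 : L) • (1 : End L V)) z = 0 := by
    intro U hFU hU z hz j
    induction j with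
    | zero =>
      intro h
      rw [pow_zero, End.one_apply] at h
      rw [h, map_zero]
    | succ j ih =>
      intro h
      cases j with
      | zero => simpa using h
      | succ j =>
        apply ih
        have h8 : (F - (1 : L) • (1 : End L V)) ((F - (1 : L) • (1 : End L V))
            (((F - (1 : L) • (1 : End L V)) ^ j) z)) = 0 := by
          rw [← End.mul_apply, ← End.mul_apply, ← pow_two, ← pow_add, add_comm 2 j]
          exact h
        have h9 : ((F - (1 : L) • (1 : End L V)) ^ j) z ∈ U := sub_pow_mem hFU 1 j z hz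
        rw [hF1] at h8 h9 ⊢
        rw [pow_succ', End.mul_apply]
        exact hU _ h9 h8
  -- the claim on each eigenspace
  have key : ∀ μ : L, ∀ y ∈ G ⊓ g.eigenspace μ, (F - (1 : L) • (1 : End L V)) y = 0 := by
    rintro μ y ⟨hyG, hyμ⟩
    by_cases hy0 : y = 0
    · rw [hy0, map_zero]
    -- the order of the eigenvalue
    have hμn : μ ^ n = 1 := by
      have h4 := hpowg n μ y (End.mem_eigenspace_iff.1 hyμ)
      rw [hgd, End.one_apply] at h4
      have h5 : (1 - μ ^ n) • y = 0 := by rw [sub_smul, one_smul, ← h4, sub_self]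
      rcases smul_eq_zero.1 h5 with h6 | h6
      · exact (sub_eq_zero.1 h6).symm
      · exact absurd h6 hy0
    set d := orderOf μ with hd
    have hdn : d ∣ n := orderOf_dvd_of_pow_eq_one hμn
    have hd0 : 0 < d := Nat.pos_of_dvd_of_pos hdn hn
    have hprim : IsPrimitiveRoot μ d := IsPrimitiveRoot.orderOf μ
    have : NeZero (d : L) := ⟨by exact_mod_cast hd0.ne'⟩
    have hker : ∀ z ∈ g.eigenspace μ, z ∈ LinearMap.ker (aeval g (cyclotomic d L)) := by
      intro z hz
      rw [LinearMap.mem_ker]
      by_cases hz0 : z = 0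
      · rw [hz0, map_zero]
      · rw [Module.End.aeval_apply_of_hasEigenvector ⟨hz, hz0⟩,
          (isRoot_cyclotomic_iff.2 hprim : (cyclotomic d L).eval μ = 0), zero_smul]
    obtain ⟨k, hk⟩ := (hmemG y).1 hyG
    rcases h d hdn with h1 | h1 | h1
    · -- multiplicity one
      obtain ⟨a, b, ha, hb, rfl⟩ := joint_split hNc hNT hperp (χ := ch μ) (by
        rw [hjoint]; exact hyμ)
      rw [hjoint] at ha hb
      obtain ⟨-, h4⟩ := split hNc (T := (F - (1 : L) • (1 : End L V)) ^ k) (sub_pow_mem hFN 1 k)
        (sub_pow_mem hFperp 1 k) ha.2 hb.2 hk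
      have h5 : (F - (1 : L) • (1 : End L V)) a = 0 := by
        rw [hF1, LinearMap.sub_apply, hNF a ha.2, End.one_apply, sub_self]
      rw [map_add, h5, zero_add]
      have hU : ∀ z ∈ g.eigenspace μ ⊓ B.orthogonal N, F z ∈ g.eigenspace μ ⊓ B.orthogonal N :=
        fun z hz => ⟨hFg μ z hz.1, hFperp z hz.2⟩
      have h6 := mult_prim hn hgd hgW hc hd0 hprim
      have htot : 0 < d.totient := Nat.totient_pos.2 hd0
      have h7 : finrank L ↥(B.orthogonal N ⊓ G ⊓ g.eigenspace μ) ≤ 1 := by
        by_contra hcon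
        push Not at hcon
        have h8 : d.totient * 2 ≤ d.totient * finrank L ↥(B.orthogonal N ⊓ G ⊓ g.eigenspace μ) :=
          Nat.mul_le_mul_left _ hcon
        omega
      have h8 : g.eigenspace μ ⊓ B.orthogonal N ⊓ F.maxGenEigenspace 1 =
          B.orthogonal N ⊓ G ⊓ g.eigenspace μ := by
        rw [inf_assoc, inf_comm]
      have h9 := dim_le hU hb h4
      rw [h8] at h9
      have h10 := pow_mono h7 h9
      rwa [pow_one] at h10
    · -- `d ≤ 2`: the eigenspace is self-dual
      obtain ⟨a, b, ha, hb, rfl⟩ := joint_split hNc hNT hperp (χ := ch μ) (by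
        rw [hjoint]; exact hyμ)
      rw [hjoint] at ha hb
      obtain ⟨-, h4⟩ := split hNc (T := (F - (1 : L) • (1 : End L V)) ^ k) (sub_pow_mem hFN 1 k)
        (sub_pow_mem hFperp 1 k) ha.2 hb.2 hk
      have h5 : (F - (1 : L) • (1 : End L V)) a = 0 := by
        rw [hF1, LinearMap.sub_apply, hNF a ha.2, End.one_apply, sub_self]
      rw [map_add, h5, zero_add]
      have hU : ∀ z ∈ g.eigenspace μ ⊓ B.orthogonal N, F z ∈ g.eigenspace μ ⊓ B.orthogonal N :=
        fun z hz => ⟨hFg μ z hz.1, hFperp z hz.2⟩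
      have hμ2 : μ ^ 2 = 1 := by
        have h6 : μ ^ d = 1 := pow_orderOf_eq_one μ
        have h7 : d = 1 ∨ d = 2 := by omega
        rcases h7 with h7 | h7
        · rw [h7, pow_one] at h6
          rw [h6, one_pow]
        · rw [h7] at h6
          exact h6
      have hμi : μ ^ (n - 1) = μ := by
        have h6 : μ ^ (n - 1) * μ = μ * μ := by
          rw [← pow_succ, hd1, hμn, ← pow_two, hμ2]
        have hμ0 : μ ≠ 0 := by
          rintro rfl
          rw [zero_pow two_ne_zero] at hμ2
          exact zero_ne_one hμ2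
        exact mul_right_cancel₀ hμ0 h6
      have hnd := nondeg_joint hB hs (T := T) (s := fun b => !b) hss hadj ch hspan hNT hNn
        (χ := ch μ) (by intro b; cases b <;> simp [ch, hμi])
      rw [hjoint] at hnd
      have h6 := odd_le two_ne_zero hs hF hU hnd (α := 1) (one_pow 2) hb h4
      have h7 : g.eigenspace μ ⊓ B.orthogonal N ⊓ F.maxGenEigenspace 1 ≤
          B.orthogonal N ⊓ G ⊓ LinearMap.ker (aeval g (cyclotomic d L)) := by
        rintro z ⟨⟨h8, h9⟩, h10⟩
        exact ⟨⟨h9, h10⟩, hker z h8⟩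
      have h7' := Submodule.finrank_mono h7
      have h8 : 2 * ((finrank L ↥(g.eigenspace μ ⊓ B.orthogonal N ⊓ F.maxGenEigenspace 1) - 1)
          / 2) + 1 = 1 := by
        omega
      rw [h8, pow_one] at h6
      exact h6
    · -- semisimple on the kernel of the cyclotomic polynomial
      apply hup (LinearMap.ker (aeval g (cyclotomic d L))) _ h1 y (hker y hyμ) k hk
      intro z hz
      rw [LinearMap.mem_ker] at hz ⊢
      have hcom : Commute g F := LinearMap.ext hgF
      have hcom2 : Commute (aeval g (cyclotomic d L)) F := by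
        rw [aeval_eq_sum_range]
        exact Commute.sum_left _ _ _ fun i _ => (hcom.pow_left i).smul_left _
      have h3 := congrArg (fun f : End L V => f z) hcom2.eq
      simp only [End.mul_apply] at h3
      rw [h3, hz, map_zero]
  have hle : G ≤ LinearMap.ker (F - (1 : L) • (1 : End L V)) := by
    have h3 : ⨆ μ, (g.genEigenspace μ) ((1 : ℕ) : ℕ∞) = ⊤ := by
      have h4 : ∀ μ, (g.genEigenspace μ) ((1 : ℕ) : ℕ∞) = g.maxGenEigenspace μ := by
        intro μ
        rw [hgs.isFinitelySemisimple.maxGenEigenspace_eq_eigenspace]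
        rfl
      simp only [h4]
      exact End.iSup_maxGenEigenspace_eq_top g
    rw [Submodule.eq_iSup_inf_genEigenspace (p := G) (f := g) ((1 : ℕ) : ℕ∞) hgG h3]
    apply iSup_le
    intro μ y hy
    exact LinearMap.mem_ker.2 (key μ y hy)
  have hxG : x ∈ G := (hmemG x).2 ⟨m, by rw [hF1]; exact hx⟩
  have := LinearMap.mem_ker.1 (hle hxG)
  rwa [hF1] at this

end Pool.Agent.Helper13.Equiv
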