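import Pool.Agent.Helper13.Equiv.Cyclic

/-!
# Semisimplicity of Frobenius at the eigenvalue `q` and cyclic covers of surfaces

`CyclicH2 L V` lists properties of the Frobenius endomorphism `F` of `V = H²(X̄, L(1))`,
`L = \bar ℚ_ℓ`, of a smooth projective surface over a finite field, with an automorphism `g` of
finite order of the surface and the subspace `N` generated by the divisors.
-/

open Polynomial Module

namespace Pool.Agent.Results.MP_1fe969_ag.CyclicCovers

open Pool.Agent.Helper13.Equiv

/-- Frobenius and an automorphism of finite order on `V = H²(X̄, L(1))`. -/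
structure CyclicH2 (L V : Type) [Field L] [AddCommGroup V] [Module L V]
    [FiniteDimensional L V] where
  /-- the cup product pairing -/
  B : LinearMap.BilinForm L V
  nondeg : B.Nondegenerate
  symm : ∀ x y, B x y = B y x
  /-- the Frobenius -/
  F : End L V
  isometry : ∀ x y, B (F x) (F y) = B x y
  /-- an automorphism of the surface of order dividing `n` -/
  g : End L V
  n : ℕ
  n_pos : 0 < n
  g_pow : g ^ n = 1
  g_comm : ∀ x, g (F x) = F (g x)
  g_isometry : ∀ x y, B (g x) (g y) = B x y
  /-- the subspace generated by the divisors -/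
  N : Submodule L V
  N_F : ∀ x ∈ N, F x = x
  N_g : ∀ x ∈ N, g x ∈ N
  N_nondeg : (B.restrict N).Nondegenerate

variable {L V : Type} [Field L] [AddCommGroup V] [Module L V] [FiniteDimensional L V]

/-- the part of the generalised eigenspace of `F` for the eigenvalue one which is orthogonal to
the divisors -/
noncomputable def CyclicH2.W (H : CyclicH2 L V) : Submodule L V :=
  H.B.orthogonal H.N ⊓ H.F.maxGenEigenspace 1

/-- the part of `V` on which `g` satisfies the `d`-th cyclotomic polynomial -/
noncomputable def CyclicH2.part (H : CyclicH2 L V) (d : ℕ) : Submodule L V :=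
  LinearMap.ker (aeval H.g (cyclotomic d L))

theorem CyclicH2.stable (H : CyclicH2 L V) : ∀ x ∈ H.W, H.g x ∈ H.W := by
  rintro x ⟨h1, h2⟩
  have hd1 : H.n - 1 + 1 = H.n := Nat.succ_pred_eq_of_pos H.n_pos
  refine ⟨?_, ?_⟩
  · rw [SetLike.mem_coe, LinearMap.BilinForm.mem_orthogonal_iff] at h1 ⊢
    intro y hy
    have hpow : ∀ m : ℕ, (H.g ^ m) y ∈ H.N := by
      intro m
      induction m with
      | zero => simpa using hy
      | succ m ih => rw [pow_succ', End.mul_apply]; exact H.N_g _ ih
    have h3 : H.g ((H.g ^ (H.n - 1)) y) = y := by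
      rw [← End.mul_apply, ← pow_succ', hd1, H.g_pow, End.one_apply]
    change H.B y (H.g x) = 0
    rw [← h3, H.g_isometry]
    exact h1 _ (hpow _)
  · rw [SetLike.mem_coe, End.mem_maxGenEigenspace] at h2 ⊢
    obtain ⟨k, hk⟩ := h2
    refine ⟨k, ?_⟩
    have hcom : Commute H.g H.F := LinearMap.ext H.g_comm
    have hcom2 : Commute H.g ((H.F - (1 : L) • (1 : End L V)) ^ k) := by
      rw [one_smul]
      exact (hcom.sub_right (Commute.one_right H.g)).pow_right k
    have := congrArg (fun f : End L V => f x) hcom2.eq
    simp only [End.mul_apply] at this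
    rw [← this, hk, map_zero]

/-- If the characteristic polynomial of `g` on `W` is rational and for every `d ∣ n` the excess
`dim (W ∩ part d)` is smaller than `2 φ(d)`, or is at most two and `d ≤ 2`, or `F` is semisimple
at the eigenvalue one on `part d`, then `F` is semisimple at the eigenvalue one. -/
theorem result [CharZero L] [IsAlgClosed L] (H : CyclicH2 L V) (c : ℚ[X])
    (hc : c.map (algebraMap ℚ L) = (H.g.restrict H.stable).charpoly)
    (h : ∀ d, d ∣ H.n →
      finrank L ↥(H.W ⊓ H.part d) < 2 * d.totient ∨
      (d ≤ 2 ∧ finrank L ↥(H.W ⊓ H.part d) ≤ 2) ∨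
      ∀ x ∈ H.part d, (H.F - 1) ((H.F - 1) x) = 0 → (H.F - 1) x = 0) :
    H.F.maxGenEigenspace 1 = H.F.eigenspace 1 ∧
      finrank L (H.F.eigenspace 1) = H.F.charpoly.rootMultiplicity 1 := by
  have h1 : H.F.maxGenEigenspace 1 = H.F.eigenspace 1 := by
    apply le_antisymm
    · intro x hx
      rw [End.mem_maxGenEigenspace] at hx
      obtain ⟨m, hm⟩ := hx
      rw [one_smul] at hm
      have h2 := cyclic_block H.n_pos H.nondeg H.symm H.isometry H.g_pow H.g_comm H.g_isometry
        H.N_F H.N_g H.N_nondeg H.stable hc h hm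
      rw [End.mem_eigenspace_iff, one_smul]
      rw [LinearMap.sub_apply, End.one_apply, sub_eq_zero] at h2
      exact h2
    · exact End.genEigenspace_le_maximal _ _ _
  refine ⟨h1, ?_⟩
  rw [← h1, LinearMap.finrank_maxGenEigenspace_eq]

end Pool.Agent.Results.MP_1fe969_ag.CyclicCovers
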