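import Mathlib

/-!
# Definitions: common eigenspaces, and conditions on a polynomial at a place of a number field
-/

open Polynomial Module

namespace Pool.Agent.Helper13.Equiv

section

variable {L V ι : Type*} [Field L] [AddCommGroup V] [Module L V]

/-- common eigenspace -/
def joint (T : ι → End L V) (χ : ι → L) : Submodule L V := ⨅ i, (T i).eigenspace (χ i)

end

section

open IsDedekindDomain NumberField

variable {E : Type*} [Field E] [NumberField E]

/-- every monic irreducible factor with a coefficient that is not integral of the polynomial `A`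
over the completion `E_v` has multiplicity at most `b` -/
def MultAt (A : E[X]) (b : ℕ) (v : HeightOneSpectrum (𝓞 E)) : Prop :=
  ∀ R : (v.adicCompletion E)[X], R.Monic → Irreducible R →
    (∃ i, R.coeff i ∉ v.adicCompletionIntegers E) →
    ∀ k, R ^ k ∣ A.map (algebraMap E (v.adicCompletion E)) → k ≤ b

/-- `v (c) ≥ - b` for all coefficients `c` -/
def DenomAt (A : E[X]) (b : ℕ) (v : HeightOneSpectrum (𝓞 E)) : Prop :=
  ∀ i, v.valuation E (A.coeff i) ≤ WithZero.exp (b : ℤ)

/-- at most `b` roots of negative valuation -/
def SlopesAt (A : E[X]) (b : ℕ) (v : HeightOneSpectrum (𝓞 E)) : Prop :=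
  ∃ j, A.natDegree ≤ j + b ∧ ∀ i, v.valuation E (A.coeff i) ≤ v.valuation E (A.coeff j)

end

end Pool.Agent.Helper13.Equiv
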