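import Pool.Agent.Helper13.Equiv.Blocks
import Pool.Agent.Helper13.Equiv.Defs

/-!
# Common eigenspaces of a family of operators closed under adjoints
-/

open Polynomial Module

namespace Pool.Agent.Helper13.Equiv

open Pool.Agent.Helper40.Frob

variable {L V ι : Type*} [Field L] [AddCommGroup V] [Module L V]

theorem mem_joint {T : ι → End L V} {χ : ι → L} {x : V} :
    x ∈ joint T χ ↔ ∀ i, T i x = χ i • x := by
  unfold joint
  rw [Submodule.mem_iInf]
  exact forall_congr' fun i => End.mem_eigenspace_iff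

theorem joint_stable {T : ι → End L V} {F : End L V} (hTF : ∀ i x, T i (F x) = F (T i x))
    (χ : ι → L) : ∀ x ∈ joint T χ, F x ∈ joint T χ := by
  intro x hx
  rw [mem_joint] at hx ⊢
  intro i
  rw [hTF, hx i, map_smul]

theorem perp_stable {B : LinearMap.BilinForm L V} {T : ι → End L V} {s : ι → ι}
    (hss : ∀ i, s (s i) = i) (hadj : ∀ i x y, B (T i x) y = B x (T (s i) y)) {N : Submodule L V}
    (hN : ∀ i, ∀ x ∈ N, T i x ∈ N) (i : ι) : ∀ x ∈ B.orthogonal N, T i x ∈ B.orthogonal N := by
  intro x hx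
  rw [LinearMap.BilinForm.mem_orthogonal_iff] at hx ⊢
  intro n hn
  have h1 := hadj (s i) n x
  rw [hss] at h1
  rw [← h1]
  exact hx _ (hN _ n hn)

/-- components of a common eigenvector -/
theorem joint_split {T : ι → End L V} {N M : Submodule L V} (hNM : IsCompl N M)
    (hN : ∀ i, ∀ x ∈ N, T i x ∈ N) (hM : ∀ i, ∀ x ∈ M, T i x ∈ M) {χ : ι → L} {x : V}
    (hx : x ∈ joint T χ) : ∃ n m, n ∈ joint T χ ⊓ N ∧ m ∈ joint T χ ⊓ M ∧ x = n + m := by
  have h1 : x ∈ N ⊔ M := by rw [hNM.sup_eq_top]; exact Submodule.mem_top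
  obtain ⟨n, hn, m, hm, hnm⟩ := Submodule.mem_sup.1 h1
  rw [mem_joint] at hx
  have h2 : ∀ i, T i n = χ i • n ∧ T i m = χ i • m := by
    intro i
    have h3 := split hNM (T := T i - χ i • 1) (sub_mem (hN i) _) (sub_mem (hM i) _) hn hm (by
      rw [hnm, LinearMap.sub_apply, hx i, LinearMap.smul_apply, End.one_apply, sub_self])
    rw [LinearMap.sub_apply, LinearMap.smul_apply, End.one_apply, sub_eq_zero,
      LinearMap.sub_apply, LinearMap.smul_apply, End.one_apply, sub_eq_zero] at h3
    exact h3
  exact ⟨n, m, ⟨mem_joint.2 fun i => (h2 i).1, hn⟩, ⟨mem_joint.2 fun i => (h2 i).2, hm⟩,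
    hnm.symm⟩

variable [FiniteDimensional L V]

theorem F_perp {B : LinearMap.BilinForm L V} (hB : B.Nondegenerate) {F : End L V}
    (hF : ∀ x y, B (F x) (F y) = B x y) {N : Submodule L V} (hN : ∀ x ∈ N, F x ∈ N) :
    ∀ x ∈ B.orthogonal N, F x ∈ B.orthogonal N := by
  intro x hx
  rw [LinearMap.BilinForm.mem_orthogonal_iff] at hx ⊢
  have hinj : Function.Injective F := by
    rw [injective_iff_map_eq_zero]
    intro y hy
    apply hB.1
    intro z
    rw [← hF, hy, map_zero, LinearMap.zero_apply]
  have hinjN : Function.Injective (F.restrict hN) := by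
    intro a b hab
    exact Subtype.ext (hinj (congrArg Subtype.val hab))
  have hsurj := LinearMap.injective_iff_surjective.1 hinjN
  intro n hn
  obtain ⟨m, hm⟩ := hsurj ⟨n, hn⟩
  have h1 : F (m : V) = n := congrArg Subtype.val hm
  rw [← h1]
  change B (F m) (F x) = 0
  rw [hF]
  exact hx m m.2

/-- the form is nondegenerate on the part of the complement of `N` in a self-dual common
eigenspace -/
theorem nondeg_joint {B : LinearMap.BilinForm L V} (hB : B.Nondegenerate)
    (hs : ∀ x y, B x y = B y x) {T : ι → End L V} {s : ι → ι}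
    (hss : ∀ i, s (s i) = i) (hadj : ∀ i x y, B (T i x) y = B x (T (s i) y)) {κ : Type*}
    (c : κ → ι → L) (hspan : ⨆ k, joint T (c k) = ⊤) {N : Submodule L V}
    (hN : ∀ i, ∀ x ∈ N, T i x ∈ N) (hNn : (B.restrict N).Nondegenerate) {χ : ι → L}
    (hχ : ∀ i, χ (s i) = χ i) :
    (B.restrict (joint T χ ⊓ B.orthogonal N)).Nondegenerate := by
  have hrefl : B.IsRefl := fun a b hab => by rw [hs]; exact hab
  have hNc : IsCompl N (B.orthogonal N) :=
    B.isCompl_orthogonal_of_restrict_nondegenerate hrefl hNn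
  have hperp := perp_stable hss hadj hN
  rw [LinearMap.BilinForm.restrict_nondegenerate_iff_isCompl_orthogonal hrefl,
    B.isCompl_orthogonal_iff_disjoint hrefl, Submodule.disjoint_def]
  rintro y hy hy'
  rw [LinearMap.BilinForm.mem_orthogonal_iff] at hy'
  apply hB.1
  intro v
  have hle : (⊤ : Submodule L V) ≤ LinearMap.ker (B y) := by
    rw [← hspan]
    apply iSup_le
    intro k x hx
    rw [LinearMap.mem_ker]
    obtain ⟨n, m, hn, hm, rfl⟩ := joint_split hNc hN hperp hx
    have h1 : B y n = 0 := by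
      rw [hs]
      exact (LinearMap.BilinForm.mem_orthogonal_iff.1 hy.2) n hn.2
    have h2 : B y m = 0 := by
      by_cases hc : ∀ i, χ i = c k i
      · rw [hs]
        apply hy' m
        refine ⟨?_, hm.2⟩
        rw [SetLike.mem_coe, mem_joint]
        intro i
        rw [hc i]
        exact mem_joint.1 hm.1 i
      · push Not at hc
        obtain ⟨i, hi⟩ := hc
        have h3 := hadj (s i) y m
        rw [hss, mem_joint.1 hy.1 (s i), mem_joint.1 hm.1 i, hχ i, map_smul, map_smul,
          LinearMap.smul_apply, smul_eq_mul, smul_eq_mul] at h3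
        have h4 : (χ i - c k i) * B y m = 0 := by linear_combination h3
        rcases mul_eq_zero.1 h4 with h5 | h5
        · exact absurd (sub_eq_zero.1 h5) hi
        · exact h5
    rw [map_add, h1, h2, add_zero]
  exact LinearMap.mem_ker.1 (hle Submodule.mem_top)

/-- blocks on `N` are trivial -/
theorem trivial_on {F : End L V} {N : Submodule L V} (hN : ∀ x ∈ N, F x ∈ N)
    (hss : End.IsSemisimple (F.restrict hN)) {α : L} {x : V} (hx : x ∈ N) {n : ℕ}
    (hn : ((F - α • 1) ^ n) x = 0) : (F - α • 1) x = 0 := by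
  have h1 : (⟨x, hx⟩ : N) ∈ End.maxGenEigenspace (F.restrict hN) α := by
    rw [End.mem_maxGenEigenspace]
    refine ⟨n, Subtype.ext ?_⟩
    have hcoe : ∀ (k : ℕ) (y : N), (((((F.restrict hN) - α • 1) ^ k) y : N) : V) =
        ((F - α • 1) ^ k) (y : V) := by
      intro k
      induction k with
      | zero => intro y; simp
      | succ k ih =>
        intro y
        rw [pow_succ, pow_succ, End.mul_apply, End.mul_apply, ih]
        rfl
    rw [hcoe, hn]
    rfl
  rw [hss.isFinitelySemisimple.maxGenEigenspace_eq_eigenspace, End.mem_eigenspace_iff] at h1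
  have h2 := congrArg Subtype.val h1
  change F x = α • x at h2
  rw [LinearMap.sub_apply, LinearMap.smul_apply, End.one_apply, h2, sub_self]

end Pool.Agent.Helper13.Equiv
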